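import Pool.Agent.D0H63.MP.Cnt

set_option autoImplicit false

/-! All non-constant rational functions of several variables at integral vectors. -/

namespace Pool.Agent.D0H63.MP

open MvPolynomial Finset
open Pool.Agent.N365.LS (Enough)

theorem bx_fin (n B : ℕ) (W : Set (Fin n → ℤ)) : {v : Fin n → ℤ | v ∈ Bx n B ∧ v ∈ W}.Finite :=
  (Bx n B).finite_toSet.subset fun _ hv => hv.1

theorem eng {n N : ℕ} {A D : MvPolynomial (Fin n) ℤ} (hrel : IsRelPrime A D) (hA : A.totalDegree ≤ N)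
    (hD : D.totalDegree ≤ N) (h0 : D.totalDegree ≠ 0) {ε : ℝ} (hε : 0 < ε) :
    ∃ C : ℝ, 0 < C ∧ ∀ B : ℕ, 1 ≤ B →
      ({v : Fin n → ℤ | v ∈ Bx n B ∧ ¬ Enough (4 * (N + 1) / ε) (eval v A) (eval v D)}.ncard : ℝ) ≤
        C * (B : ℝ) ^ ((n : ℝ) - 1 + ε) := by
  classical
  rw [Ne, totalDegree_eq_zero_iff] at h0
  push Not at h0
  obtain ⟨s, hs, i, hi⟩ := h0
  have hdeg : degreeOf i D ≠ 0 := by
    have h1 := monomial_le_degreeOf i hs
    intro h2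
    rw [h2] at h1
    exact hi (Nat.le_zero.1 h1)
  obtain ⟨m, rfl⟩ : ∃ m, n = m + 1 := ⟨n - 1, by have := i.isLt; omega⟩
  obtain ⟨σ, hσ⟩ : ∃ σ : Fin (m + 1) ≃ Fin (m + 1), σ = Equiv.swap 0 i := ⟨_, rfl⟩
  have hσi : σ i = 0 := by rw [hσ]; exact Equiv.swap_apply_right 0 i
  have hσσ : ∀ j, σ (σ j) = j := fun j => by rw [hσ]; simp
  have hrel' : IsRelPrime (rename σ A) (rename σ D) := by
    refine IsRelPrime.of_map (renameEquiv ℤ σ).symm ?_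
    have e : ∀ Q : MvPolynomial (Fin (m + 1)) ℤ, (renameEquiv ℤ σ).symm (rename σ Q) = Q := by
      intro Q
      rw [AlgEquiv.symm_apply_eq]
      rfl
    rw [e, e]
    exact hrel
  have h1 : (finSuccEquiv ℤ m (rename σ D)).natDegree ≠ 0 := by
    rw [natDegree_finSuccEquiv, ← hσi, degreeOf_rename_of_injective σ.injective]
    exact hdeg
  obtain ⟨C, hC, hc⟩ := eng0 (N := N) hrel' ((totalDegree_rename_le _ _).trans hA) ((totalDegree_rename_le _ _).trans hD) h1 hε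
  refine ⟨C, hC, fun B hB => ?_⟩
  have h2 := hc B hB
  have e : (((m + 1 : ℕ) : ℝ)) - 1 + ε = (m : ℝ) + ε := by push_cast; ring
  rw [e]
  refine le_trans ?_ h2
  rw [Nat.cast_le]
  have hsub : {v : Fin (m + 1) → ℤ | v ∈ Bx (m + 1) B ∧ ¬ Enough (4 * (N + 1) / ε) (eval v A) (eval v D)} ⊆
      (fun w : Fin (m + 1) → ℤ => w ∘ σ) '' {v : Fin (m + 1) → ℤ | v ∈ Bx (m + 1) B ∧
        ¬ Enough (4 * (N + 1) / ε) (eval v (rename σ A)) (eval v (rename σ D))} := by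
    rintro v ⟨hv1, hv2⟩
    have e1 : (v ∘ σ) ∘ σ = v := by
      funext j
      show v (σ (σ j)) = v j
      rw [hσσ]
    refine ⟨v ∘ σ, ⟨mem_Bx.2 fun j => mem_Bx.1 hv1 (σ j), ?_⟩, e1⟩
    rw [eval_rename, eval_rename, e1]
    exact hv2
  refine (Set.ncard_le_ncard hsub ?_).trans (Set.ncard_image_le ?_)
  · exact (bx_fin _ B _).image _
  · exact bx_fin _ B {v | ¬ Enough (4 * (N + 1) / ε) (eval v (rename σ A)) (eval v (rename σ D))}

/-- **all but few integral vectors** -/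
theorem few {n N : ℕ} {Prt : ℚ → Prop} {ε : ℝ} (hε : 0 < ε)
    (hP1 : ∀ x y : ℤ, Enough (4 * (N + 1) / ε) x y → Prt (x / y))
    (hP2 : ∀ y : ℤ, y ≠ 0 → ∃ X0 : ℝ, 0 ≤ X0 ∧ ∀ x : ℤ, X0 < |(x : ℝ)| → Prt (x / y))
    {A D : MvPolynomial (Fin n) ℤ} (hrel : IsRelPrime A D) (hA : A.totalDegree ≤ N)
    (hD : D.totalDegree ≤ N) (h0 : A.totalDegree ≠ 0 ∨ D.totalDegree ≠ 0) :
    ∃ C : ℝ, 0 < C ∧ ∀ B : ℕ, 1 ≤ B →
      ({v : Fin n → ℤ | v ∈ Bx n B ∧ ¬ (eval v D ≠ 0 ∧ Prt ((eval v A : ℤ) / (eval v D : ℤ)))}.ncard : ℝ) ≤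
        C * (B : ℝ) ^ ((n : ℝ) - 1 + ε) := by
  classical
  by_cases hDc : D.totalDegree = 0
  · have hAc : A.totalDegree ≠ 0 := h0.resolve_right (fun h => h hDc)
    obtain ⟨y, hy⟩ : ∃ y : ℤ, D = C y := ⟨_, totalDegree_eq_zero_iff_eq_C.1 hDc⟩
    have hy0 : y ≠ 0 := by
      rintro rfl
      rw [hy, C_0, isRelPrime_zero_right] at hrel
      exact hAc ((MvPolynomial.isUnit_iff_totalDegree_of_isReduced.1 hrel).2)
    have hev : ∀ v : Fin n → ℤ, eval v D = y := fun v => by rw [hy, eval_C]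
    obtain ⟨X0, hX0, hall⟩ := hP2 y hy0
    obtain ⟨m, rfl⟩ : ∃ m, n = m + 1 := by
      rcases n with _ | m
      · exfalso
        apply hAc
        rw [totalDegree_eq_zero_iff]
        intro s _ i
        exact i.elim0
      · exact ⟨m, rfl⟩
    have hQ0 : ∀ a : ℤ, A - C a ≠ 0 := by
      intro a h
      apply hAc
      rw [sub_eq_zero.1 h, totalDegree_C]
    have hQd : ∀ a : ℤ, (A - C a).totalDegree ≤ N := by
      intro a
      refine (totalDegree_sub _ _).trans ?_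
      rw [totalDegree_C]
      exact max_le hA (Nat.zero_le _)
    refine ⟨(2 * ⌊X0⌋₊ + 1 : ℕ) * (N * 3 ^ m) + 1, by positivity, fun B hB => ?_⟩
    have hB1 : (1 : ℝ) ≤ B := by exact_mod_cast hB
    have hB0 : (0 : ℝ) < B := by linarith
    have e : (((m + 1 : ℕ) : ℝ)) - 1 + ε = (m : ℝ) + ε := by push_cast; ring
    rw [e]
    have hsub : {v : Fin (m + 1) → ℤ | v ∈ Bx (m + 1) B ∧ ¬ (eval v D ≠ 0 ∧ Prt ((eval v A : ℤ) / (eval v D : ℤ)))} ⊆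
        (((Icc (-(⌊X0⌋₊ : ℤ)) ⌊X0⌋₊).biUnion fun a => (Bx (m + 1) B).filter fun v => eval v (A - C a) = 0 : Finset _) :
          Set (Fin (m + 1) → ℤ)) := by
      rintro v ⟨hv1, hv2⟩
      rw [hev v] at hv2
      have h1 : ¬ X0 < |((eval v A : ℤ) : ℝ)| := fun h => hv2 ⟨hy0, hall _ h⟩
      push Not at h1
      rw [mem_coe, mem_biUnion]
      refine ⟨eval v A, ?_, ?_⟩
      · rw [mem_Icc, ← abs_le, Int.abs_eq_natAbs]
        have h2 : (eval v A).natAbs ≤ ⌊X0⌋₊ := by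
          refine Nat.le_floor ?_
          rw [Nat.cast_natAbs, Int.cast_abs]
          exact h1
        exact_mod_cast h2
      · rw [mem_filter]
        refine ⟨hv1, ?_⟩
        rw [map_sub, eval_C, sub_self]
    have h1 := Set.ncard_le_ncard hsub (finite_toSet _)
    rw [Set.ncard_coe_finset] at h1
    have h2 : (((Icc (-(⌊X0⌋₊ : ℤ)) ⌊X0⌋₊).biUnion fun a => (Bx (m + 1) B).filter fun v => eval v (A - C a) = 0).card : ℝ) ≤
        ∑ a ∈ Icc (-(⌊X0⌋₊ : ℤ)) ⌊X0⌋₊, (((Bx (m + 1) B).filter fun v => eval v (A - C a) = 0).card : ℝ) := by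
      exact_mod_cast card_biUnion_le
    have h3 : ∑ a ∈ Icc (-(⌊X0⌋₊ : ℤ)) ⌊X0⌋₊, (((Bx (m + 1) B).filter fun v => eval v (A - C a) = 0).card : ℝ) ≤
        ∑ _a ∈ Icc (-(⌊X0⌋₊ : ℤ)) ⌊X0⌋₊, (N : ℝ) * (3 ^ m * (B : ℝ) ^ (m : ℝ)) := by
      refine sum_le_sum fun a _ => (zeros_le (hQ0 a) B).trans ?_
      refine mul_le_mul (by exact_mod_cast hQd a) ?_ (by positivity) (by positivity)
      rw [Real.rpow_natCast, ← mul_pow]
      exact pow_le_pow_left₀ (by positivity) (by linarith) _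
    rw [sum_const, card_Icc', nsmul_eq_mul] at h3
    have h10 : (B : ℝ) ^ (m : ℝ) ≤ (B : ℝ) ^ ((m : ℝ) + ε) := Real.rpow_le_rpow_of_exponent_le hB1 (by linarith)
    calc _ ≤ _ := Nat.cast_le.2 h1
      _ ≤ _ := h2
      _ ≤ _ := h3
      _ = (2 * ⌊X0⌋₊ + 1 : ℕ) * (N * 3 ^ m) * (B : ℝ) ^ (m : ℝ) := by ring
      _ ≤ (2 * ⌊X0⌋₊ + 1 : ℕ) * (N * 3 ^ m) * (B : ℝ) ^ ((m : ℝ) + ε) := by gcongr
      _ ≤ ((2 * ⌊X0⌋₊ + 1 : ℕ) * (N * 3 ^ m) + 1) * (B : ℝ) ^ ((m : ℝ) + ε) := by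
          refine mul_le_mul_of_nonneg_right ?_ (by positivity)
          linarith
  · obtain ⟨C, hC, hc⟩ := eng hrel hA hD hDc hε
    refine ⟨C, hC, fun B hB => le_trans ?_ (hc B hB)⟩
    rw [Nat.cast_le]
    refine Set.ncard_le_ncard ?_ (bx_fin n B {v | ¬ Enough (4 * (N + 1) / ε) (eval v A) (eval v D)})
    rintro v ⟨hv1, hv2⟩
    exact ⟨hv1, fun h => hv2 ⟨h.1, hP1 _ _ h⟩⟩

end Pool.Agent.D0H63.MP
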