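import Pool.Agent.D0H63.MP.Res
import Pool.Agent.N365.LS.G
import Pool.Agent.H510R2.Div

set_option autoImplicit false

/-! The integral vectors at which a non-constant rational function of several variables has a denominator of small radical. -/

namespace Pool.Agent.D0H63.MP

open MvPolynomial Finset
open Pool.Agent.H785R2.ABC (rad stmtA2 rad_pos')
open Pool.Agent.Y679.Md (rS rS_pos)
open Pool.Agent.N365.LS (Enough enough_of)

/-- the integers with a small radical outside the primes that divide `R` -/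
theorem rad_out (ε : ℝ) (hε : 0 < ε) : ∃ C : ℝ, 0 < C ∧ ∀ N : ℕ, 1 ≤ N → ∀ R : ℕ, 1 ≤ R → ∀ Z : ℝ, 0 ≤ Z →
    (((Icc 1 N).filter fun m => (rS R.primeFactors m : ℝ) ≤ Z).card : ℝ) ≤ C * (N : ℝ) ^ ε * (R : ℝ) ^ ε * Z := by
  classical
  obtain ⟨C, hC, h⟩ := stmtA2 ε hε
  obtain ⟨C', hC', h'⟩ := Pool.Agent.H510R2.divisor_bound ε hε
  refine ⟨C * C', by positivity, fun N hN R hR Z hZ => ?_⟩
  have hsub : ((Icc 1 N).filter fun m => (rS R.primeFactors m : ℝ) ≤ Z) ⊆
      (R.divisors ×ˢ Icc 1 ⌊Z⌋₊).biUnion fun r => (Icc 1 N).filter fun m => rad m = r.1 * r.2 := by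
    intro m hm
    rw [mem_filter] at hm
    rw [mem_biUnion]
    refine ⟨((∏ p ∈ m.primeFactors ∩ R.primeFactors, p), rS R.primeFactors m), ?_, ?_⟩
    · rw [mem_product]
      have hm1 : 1 ≤ rS R.primeFactors m := rS_pos _ _
      refine ⟨?_, mem_Icc.mpr ⟨hm1, Nat.le_floor hm.2⟩⟩
      rw [Nat.mem_divisors]
      refine ⟨?_, by omega⟩
      have hd : (∏ p ∈ m.primeFactors ∩ R.primeFactors, p) ∣ R :=
        (prod_dvd_prod_of_subset (m.primeFactors ∩ R.primeFactors) R.primeFactors (fun p => p) inter_subset_right).trans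
          (Nat.prod_primeFactors_dvd R)
      exact hd
    · rw [mem_filter]
      refine ⟨hm.1, ?_⟩
      unfold rad rS
      exact (prod_inter_mul_prod_sdiff m.primeFactors R.primeFactors _).symm
  calc (((Icc 1 N).filter fun m => (rS R.primeFactors m : ℝ) ≤ Z).card : ℝ)
      ≤ (((R.divisors ×ˢ Icc 1 ⌊Z⌋₊).biUnion fun r => (Icc 1 N).filter fun m => rad m = r.1 * r.2).card : ℝ) := by
        exact_mod_cast card_le_card hsub
    _ ≤ ∑ r ∈ R.divisors ×ˢ Icc 1 ⌊Z⌋₊, (((Icc 1 N).filter fun m => rad m = r.1 * r.2).card : ℝ) := by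
        exact_mod_cast card_biUnion_le
    _ ≤ ∑ _r ∈ R.divisors ×ˢ Icc 1 ⌊Z⌋₊, C * (N : ℝ) ^ ε := sum_le_sum fun r _ => h N hN _
    _ = (R.divisors.card : ℝ) * (⌊Z⌋₊ : ℝ) * (C * (N : ℝ) ^ ε) := by
        rw [sum_const, card_product, Nat.card_Icc, nsmul_eq_mul]
        simp
    _ ≤ (C' * (R : ℝ) ^ ε) * Z * (C * (N : ℝ) ^ ε) := by
        refine mul_le_mul_of_nonneg_right ?_ (by positivity)
        exact mul_le_mul (h' R hR) (Nat.floor_le hZ) (Nat.cast_nonneg _) (by positivity)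
    _ = _ := by ring

theorem fiber (f : Polynomial ℤ) (hf : f.natDegree ≠ 0) (T : Finset ℤ) (Y : Finset ℕ) :
    (T.filter fun x => (f.eval x).natAbs ∈ Y).card ≤ 2 * f.natDegree * Y.card := by
  classical
  have hsub : (T.filter fun x => (f.eval x).natAbs ∈ Y) ⊆ Y.biUnion fun y =>
      (f - Polynomial.C (y : ℤ)).roots.toFinset ∪ (f + Polynomial.C (y : ℤ)).roots.toFinset := by
    intro x hx
    rw [mem_filter] at hx
    rw [mem_biUnion]
    refine ⟨_, hx.2, ?_⟩
    have n1 : ∀ y : ℤ, f - Polynomial.C y ≠ 0 := by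
      intro y h1
      apply hf
      rw [← Polynomial.natDegree_sub_C (a := y), h1, Polynomial.natDegree_zero]
    have n2 : ∀ y : ℤ, f + Polynomial.C y ≠ 0 := by
      intro y h1
      apply hf
      rw [← Polynomial.natDegree_add_C (a := y), h1, Polynomial.natDegree_zero]
    rw [mem_union, Multiset.mem_toFinset, Multiset.mem_toFinset, Polynomial.mem_roots (n1 _), Polynomial.mem_roots (n2 _),
      Polynomial.IsRoot.def, Polynomial.IsRoot.def, Polynomial.eval_sub, Polynomial.eval_add, Polynomial.eval_C]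
    omega
  refine (card_le_card hsub).trans ((card_biUnion_le).trans ?_)
  calc ∑ y ∈ Y, ((f - Polynomial.C (y : ℤ)).roots.toFinset ∪ (f + Polynomial.C (y : ℤ)).roots.toFinset).card
      ≤ ∑ _y ∈ Y, 2 * f.natDegree := by
        refine sum_le_sum fun y _ => (card_union_le _ _).trans ?_
        have h1 := (Multiset.toFinset_card_le (f - Polynomial.C (y : ℤ)).roots).trans (Polynomial.card_roots' _)
        have h2 := (Multiset.toFinset_card_le (f + Polynomial.C (y : ℤ)).roots).trans (Polynomial.card_roots' _)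
        rw [Polynomial.natDegree_sub_C] at h1
        rw [Polynomial.natDegree_add_C] at h2
        omega
    _ = _ := by
        rw [sum_const, smul_eq_mul]
        ring

theorem eng0 {m N : ℕ} {A D : MvPolynomial (Fin (m + 1)) ℤ} (hrel : IsRelPrime A D) (hA : A.totalDegree ≤ N)
    (hD : D.totalDegree ≤ N) (h0 : (finSuccEquiv ℤ m D).natDegree ≠ 0) {ε : ℝ} (hε : 0 < ε) :
    ∃ C : ℝ, 0 < C ∧ ∀ B : ℕ, 1 ≤ B →
      ({v : Fin (m + 1) → ℤ | v ∈ Bx (m + 1) B ∧ ¬ Enough (4 * (N + 1) / ε) (eval v A) (eval v D)}.ncard : ℝ) ≤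
        C * (B : ℝ) ^ ((m : ℝ) + ε) := by
  classical
  obtain ⟨R, hR0, hR⟩ := elim hrel h0
  obtain ⟨b, hb⟩ : ∃ b, b = finSuccEquiv ℤ m D := ⟨_, rfl⟩
  rw [← hb] at h0
  have hb0 : b ≠ 0 := by
    rintro rfl
    exact h0 Polynomial.natDegree_zero
  have hD0 : D ≠ 0 := by
    rintro rfl
    rw [map_zero] at hb
    exact hb0 hb
  have hA0 : A ≠ 0 := by
    rintro rfl
    rw [isRelPrime_zero_left] at hrel
    have h1 : IsUnit b := by
      rw [hb]
      exact hrel.map (finSuccEquiv ℤ m)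
    exact h0 (Polynomial.natDegree_eq_zero_of_isUnit h1)
  have hl0 : b.leadingCoeff ≠ 0 := Polynomial.leadingCoeff_ne_zero.2 hb0
  obtain ⟨P, hP⟩ : ∃ P, P = A * D * rename Fin.succ (R * b.leadingCoeff) := ⟨_, rfl⟩
  have hP0 : P ≠ 0 := by
    rw [hP]
    refine mul_ne_zero (mul_ne_zero hA0 hD0) ?_
    rw [Ne, map_eq_zero_iff _ (rename_injective _ (Fin.succ_injective m))]
    exact mul_ne_zero hR0 hl0
  have hPv : ∀ v : Fin (m + 1) → ℤ, eval v P ≠ 0 → eval v A ≠ 0 ∧ eval v D ≠ 0 ∧ eval (fun i => v i.succ) R ≠ 0 ∧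
      eval (fun i => v i.succ) b.leadingCoeff ≠ 0 := by
    intro v hv
    rw [hP, map_mul, map_mul, eval_rename, map_mul] at hv
    have h1 := left_ne_zero_of_mul hv
    have h2 := right_ne_zero_of_mul hv
    exact ⟨left_ne_zero_of_mul h1, right_ne_zero_of_mul h1, left_ne_zero_of_mul h2, right_ne_zero_of_mul h2⟩
  obtain ⟨CA, hCA, hbA⟩ := eval_le A hA
  obtain ⟨CD, hCD, hbD⟩ := eval_le D hD
  obtain ⟨C1, hC1, hbR⟩ := eval_le R (N := R.totalDegree) le_rfl
  obtain ⟨C0, hC0⟩ : ∃ C0 : ℝ, C0 = max CA CD := ⟨_, rfl⟩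
  have hC01 : 1 ≤ C0 := by rw [hC0]; exact le_max_of_le_left hCA
  obtain ⟨N1, hN1⟩ : ∃ N1 : ℕ, N1 = R.totalDegree := ⟨_, rfl⟩
  rw [← hN1] at hbR
  obtain ⟨δ, hδ⟩ : ∃ δ : ℝ, δ = ε / (2 * ((N : ℝ) + N1 + 1)) := ⟨_, rfl⟩
  have hδ0 : 0 < δ := by rw [hδ]; positivity
  obtain ⟨Cr, hCr, hrad⟩ := rad_out δ hδ0
  obtain ⟨K, hK⟩ : ∃ K : ℝ, K = 3 ^ m * (2 * b.natDegree * (Cr * (C0 * C1) ^ δ) + P.totalDegree) +
    (2 * C0 + 1) ^ (m + 1) := ⟨_, rfl⟩
  refine ⟨K, by rw [hK]; positivity, fun B hB => ?_⟩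
  have hB1 : (1 : ℝ) ≤ B := by exact_mod_cast hB
  have hB0 : (0 : ℝ) < B := by linarith
  have hpw : 1 ≤ (B : ℝ) ^ ((m : ℝ) + ε) := Real.one_le_rpow hB1 (by positivity)
  have hfin : {v : Fin (m + 1) → ℤ | v ∈ Bx (m + 1) B ∧ ¬ Enough (4 * (N + 1) / ε) (eval v A) (eval v D)}.ncard =
      ((Bx (m + 1) B).filter fun v => ¬ Enough (4 * (N + 1) / ε) (eval v A) (eval v D)).card := by
    rw [← Set.ncard_coe_finset]
    congr 1
    ext v
    simp
  rw [hfin]
  rcases lt_or_ge (B : ℝ) C0 with hBC | hBC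
  · have h1 : (((Bx (m + 1) B).filter fun v => ¬ Enough (4 * (N + 1) / ε) (eval v A) (eval v D)).card : ℝ) ≤
        (2 * C0 + 1) ^ (m + 1) := by
      have h2 : ((Bx (m + 1) B).filter fun v => ¬ Enough (4 * (N + 1) / ε) (eval v A) (eval v D)).card ≤ (2 * B + 1) ^ (m + 1) :=
        (card_filter_le _ _).trans (card_Bx _ _).le
      have h3 : (((Bx (m + 1) B).filter fun v => ¬ Enough (4 * (N + 1) / ε) (eval v A) (eval v D)).card : ℝ) ≤
          (2 * B + 1) ^ (m + 1) := by exact_mod_cast h2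
      exact h3.trans (pow_le_pow_left₀ (by positivity) (by linarith) _)
    have h4 : (2 * C0 + 1) ^ (m + 1) ≤ K := by
      rw [hK]
      have : 0 ≤ 3 ^ m * (2 * (b.natDegree : ℝ) * (Cr * (C0 * C1) ^ δ) + P.totalDegree) := by positivity
      linarith
    have hK0 : 0 ≤ K := le_trans (by positivity) h4
    calc _ ≤ K := h1.trans h4
      _ = K * 1 := (mul_one K).symm
      _ ≤ _ := mul_le_mul_of_nonneg_left hpw hK0
  · -- the small set
    obtain ⟨Sm, hSm⟩ : ∃ Sm : Finset (Fin (m + 1) → ℤ), Sm = (Bx (m + 1) B).filter fun v => eval v P ≠ 0 ∧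
      (rS (eval (fun i => v i.succ) R).natAbs.primeFactors (eval v D).natAbs : ℝ) ≤ (B : ℝ) ^ (ε / 2) := ⟨_, rfl⟩
    have hsub : ((Bx (m + 1) B).filter fun v => ¬ Enough (4 * (N + 1) / ε) (eval v A) (eval v D)) ⊆
        ((Bx (m + 1) B).filter fun v => eval v P = 0) ∪ Sm := by
      intro v hv
      rw [mem_filter] at hv
      rw [mem_union]
      by_contra hcon
      rw [not_or, mem_filter, not_and, hSm, mem_filter, not_and] at hcon
      have hPne : eval v P ≠ 0 := hcon.1 hv.1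
      obtain ⟨k1, k2, k3, k4⟩ := hPv v hPne
      have hbig : (B : ℝ) ^ (ε / 2) < (rS (eval (fun i => v i.succ) R).natAbs.primeFactors (eval v D).natAbs : ℝ) := by
        by_contra hcon2
        push Not at hcon2
        exact hcon.2 hv.1 ⟨hPne, hcon2⟩
      have h5 := enough_of (N := N) (S := (eval (fun i => v i.succ) R).natAbs.primeFactors) (η := ε / 2) (C0 := C0)
        (x := eval v A) (y := eval v D) (v := eval v D) (B := B) (by positivity) hB hC01 hBC k2
        (fun p hp hpS hpD => ⟨hpD, fun hpA => hpS (by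
          rw [Nat.mem_primeFactors]
          have e1 : (Fin.cons (v 0) (fun i => v i.succ) : Fin (m + 1) → ℤ) = v := Fin.cons_self_tail v
          have h6 := hR (v 0) (fun i => v i.succ) p (by rw [e1]; exact hpA) (by rw [e1]; exact hpD)
          exact ⟨hp, Int.natCast_dvd.1 h6, Int.natAbs_ne_zero.2 k3⟩)⟩) hbig
        ((hbA B hB v hv.1).trans (mul_le_mul_of_nonneg_right (hC0 ▸ le_max_left _ _) (by positivity)))
        ((hbD B hB v hv.1).trans (mul_le_mul_of_nonneg_right (hC0 ▸ le_max_right _ _) (by positivity)))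
      have e : (2 * ((N : ℝ) + 1) / (ε / 2)) = 4 * (N + 1) / ε := by field_simp; ring
      rw [e] at h5
      exact hv.2 h5
    have hz := zeros_le hP0 B
    -- count of the small set
    have hW : ∀ s ∈ Bx m B, ((Sm.filter fun v => (fun i => v i.succ) = s).card : ℝ) ≤
        2 * b.natDegree * (Cr * (C0 * C1) ^ δ) * (B : ℝ) ^ ε := by
      intro s hs
      rcases (Sm.filter fun v => (fun i => v i.succ) = s).eq_empty_or_nonempty with he | ⟨v0, hv0⟩
      · rw [he, card_empty, Nat.cast_zero]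
        positivity
      · rw [mem_filter, hSm, mem_filter] at hv0
        obtain ⟨⟨-, hv0P, -⟩, hv0s⟩ := hv0
        obtain ⟨-, -, k3, k4⟩ := hPv v0 hv0P
        rw [hv0s] at k3 k4
        obtain ⟨f, hf⟩ : ∃ f : Polynomial ℤ, f = b.map (eval s) := ⟨_, rfl⟩
        have hfd : f.natDegree = b.natDegree := by
          rw [hf]
          exact Polynomial.natDegree_map_of_leadingCoeff_ne_zero _ k4
        obtain ⟨Y, hY⟩ : ∃ Y : Finset ℕ, Y = (Icc 1 ⌊C0 * (B : ℝ) ^ N⌋₊).filter fun y =>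
          (rS (eval s R).natAbs.primeFactors y : ℝ) ≤ (B : ℝ) ^ (ε / 2) := ⟨_, rfl⟩
        have h1 : (Sm.filter fun v => (fun i => v i.succ) = s).card ≤
            ((Icc (-(B : ℤ)) B).filter fun x => (f.eval x).natAbs ∈ Y).card := by
          refine card_le_card_of_injOn (fun v => v 0) ?_ ?_
          · intro v hv
            rw [mem_coe, mem_filter, hSm, mem_filter] at hv
            obtain ⟨⟨hvB, hvP, hvr⟩, hvs⟩ := hv
            obtain ⟨-, j2, -, -⟩ := hPv v hvP
            have e1 : (Fin.cons (v 0) s : Fin (m + 1) → ℤ) = v := by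
              rw [← hvs]
              exact Fin.cons_self_tail v
            have e2 : f.eval (v 0) = eval v D := by
              rw [hf, hb, ← eval_eq_eval_mv_eval', e1]
            rw [mem_coe, mem_filter, mem_Icc, hY, mem_filter, mem_Icc]
            simp only
            rw [e2]
            rw [hvs] at hvr
            refine ⟨abs_le.1 (mem_Bx.1 hvB 0), ⟨Int.natAbs_pos.2 j2, Nat.le_floor ?_⟩, hvr⟩
            rw [Nat.cast_natAbs, Int.cast_abs]
            exact (hbD B hB v hvB).trans (mul_le_mul_of_nonneg_right (hC0 ▸ le_max_right _ _) (by positivity))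
          · intro v hv w hw hvw
            rw [mem_coe, mem_filter] at hv hw
            funext i
            refine Fin.cases ?_ (fun j => ?_) i
            · exact hvw
            · have := congrFun (hv.2.trans hw.2.symm) j
              exact this
        have h2 := fiber f (by rw [hfd]; exact h0) (Icc (-(B : ℤ)) B) Y
        have hX0 : 1 ≤ C0 * (B : ℝ) ^ N := by
          have := one_le_pow₀ hB1 (n := N)
          nlinarith
        have hX1 : 1 ≤ ⌊C0 * (B : ℝ) ^ N⌋₊ := Nat.le_floor (by exact_mod_cast hX0)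
        have h3 := hrad _ hX1 (eval s R).natAbs (Int.natAbs_pos.2 k3) ((B : ℝ) ^ (ε / 2)) (by positivity)
        rw [← hY] at h3
        have h4 : ((⌊C0 * (B : ℝ) ^ N⌋₊ : ℕ) : ℝ) ^ δ * (((eval s R).natAbs : ℕ) : ℝ) ^ δ ≤
            (C0 * C1) ^ δ * (B : ℝ) ^ (ε / 2) := by
          rw [← Real.mul_rpow (by positivity) (by positivity)]
          have h5 : ((⌊C0 * (B : ℝ) ^ N⌋₊ : ℕ) : ℝ) * (((eval s R).natAbs : ℕ) : ℝ) ≤ (C0 * C1) * (B : ℝ) ^ (N + N1) := by
            rw [pow_add, mul_mul_mul_comm]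
            refine mul_le_mul (Nat.floor_le (by positivity)) ?_ (by positivity) (by positivity)
            rw [Nat.cast_natAbs, Int.cast_abs]
            exact hbR B hB s hs
          refine (Real.rpow_le_rpow (by positivity) h5 hδ0.le).trans ?_
          rw [Real.mul_rpow (by positivity) (by positivity), ← Real.rpow_natCast, ← Real.rpow_mul hB0.le]
          refine mul_le_mul_of_nonneg_left ?_ (by positivity)
          refine Real.rpow_le_rpow_of_exponent_le hB1 ?_
          rw [hδ]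
          push_cast
          rw [mul_div_assoc', div_le_div_iff₀ (by positivity) (by positivity)]
          nlinarith
        have h6 : (Y.card : ℝ) ≤ Cr * (C0 * C1) ^ δ * (B : ℝ) ^ ε := by
          refine h3.trans ?_
          have e : (B : ℝ) ^ ε = (B : ℝ) ^ (ε / 2) * (B : ℝ) ^ (ε / 2) := by
            rw [← Real.rpow_add hB0]
            congr 1
            ring
          rw [e]
          calc Cr * ((⌊C0 * (B : ℝ) ^ N⌋₊ : ℕ) : ℝ) ^ δ * (((eval s R).natAbs : ℕ) : ℝ) ^ δ * (B : ℝ) ^ (ε / 2)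
              = Cr * (((⌊C0 * (B : ℝ) ^ N⌋₊ : ℕ) : ℝ) ^ δ * (((eval s R).natAbs : ℕ) : ℝ) ^ δ) * (B : ℝ) ^ (ε / 2) := by ring
            _ ≤ Cr * ((C0 * C1) ^ δ * (B : ℝ) ^ (ε / 2)) * (B : ℝ) ^ (ε / 2) := by gcongr
            _ = _ := by ring
        have h7 : ((Sm.filter fun v => (fun i => v i.succ) = s).card : ℝ) ≤ 2 * f.natDegree * Y.card := by
          exact_mod_cast h1.trans h2
        rw [hfd] at h7
        refine h7.trans ?_
        calc 2 * (b.natDegree : ℝ) * Y.card ≤ 2 * (b.natDegree : ℝ) * (Cr * (C0 * C1) ^ δ * (B : ℝ) ^ ε) := by gcongr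
          _ = _ := by ring
    have hmaps : ∀ v ∈ Sm, (fun i : Fin m => v i.succ) ∈ Bx m B := by
      intro v hv
      rw [hSm, mem_filter] at hv
      exact mem_Bx.2 fun i => mem_Bx.1 hv.1 i.succ
    have hcard : (Sm.card : ℝ) ≤ (2 * B + 1) ^ m * (2 * b.natDegree * (Cr * (C0 * C1) ^ δ) * (B : ℝ) ^ ε) := by
      rw [card_eq_sum_card_fiberwise hmaps]
      push_cast
      refine (sum_le_sum hW).trans (le_of_eq ?_)
      rw [sum_const, card_Bx, nsmul_eq_mul]
      push_cast
      ring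
    have h8 : (((Bx (m + 1) B).filter fun v => ¬ Enough (4 * (N + 1) / ε) (eval v A) (eval v D)).card : ℝ) ≤
        (((Bx (m + 1) B).filter fun v => eval v P = 0).card : ℝ) + Sm.card := by
      exact_mod_cast (card_le_card hsub).trans (card_union_le _ _)
    have h9 : (2 * (B : ℝ) + 1) ^ m ≤ 3 ^ m * (B : ℝ) ^ (m : ℝ) := by
      rw [Real.rpow_natCast, ← mul_pow]
      exact pow_le_pow_left₀ (by positivity) (by linarith) _
    have h10 : (B : ℝ) ^ (m : ℝ) ≤ (B : ℝ) ^ ((m : ℝ) + ε) := Real.rpow_le_rpow_of_exponent_le hB1 (by linarith)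
    have h11 : (B : ℝ) ^ (m : ℝ) * (B : ℝ) ^ ε = (B : ℝ) ^ ((m : ℝ) + ε) := (Real.rpow_add hB0 _ _).symm
    calc (((Bx (m + 1) B).filter fun v => ¬ Enough (4 * (N + 1) / ε) (eval v A) (eval v D)).card : ℝ)
        ≤ P.totalDegree * (2 * B + 1) ^ m + (2 * B + 1) ^ m * (2 * b.natDegree * (Cr * (C0 * C1) ^ δ) * (B : ℝ) ^ ε) := by
          linarith
      _ ≤ P.totalDegree * (3 ^ m * (B : ℝ) ^ ((m : ℝ) + ε)) +
          3 ^ m * (B : ℝ) ^ (m : ℝ) * (2 * b.natDegree * (Cr * (C0 * C1) ^ δ) * (B : ℝ) ^ ε) := by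
          refine add_le_add (mul_le_mul_of_nonneg_left (h9.trans ?_) (Nat.cast_nonneg _))
            (mul_le_mul_of_nonneg_right h9 (by positivity))
          exact mul_le_mul_of_nonneg_left h10 (by positivity)
      _ = 3 ^ m * (2 * b.natDegree * (Cr * (C0 * C1) ^ δ) + P.totalDegree) * (B : ℝ) ^ ((m : ℝ) + ε) := by
          rw [← h11]
          ring
      _ ≤ K * (B : ℝ) ^ ((m : ℝ) + ε) := by
          refine mul_le_mul_of_nonneg_right ?_ (by positivity)
          rw [hK]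
          have : 0 ≤ (2 * C0 + 1) ^ (m + 1) := by positivity
          linarith

end Pool.Agent.D0H63.MP
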