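import Pool.Agent.D0H63.MP.Res
import Pool.Agent.D0H63.MR.Lev
import Pool.Agent.D0H63.MR.Odd

set_option autoImplicit false

/-! Thin sets of integral vectors and all the approximations of the points of a metric space. -/

namespace Pool.Agent.D0H63.MP

open Filter Set MeasureTheory
open scoped ENNReal

/-- If `W` contains at most `C B ^ s` vectors with coordinates of absolute value at most `B`, then for all points `ξ` of the metric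
space `Y` but a set of dimension at most `s / τ` only finitely many `v` in `W` satisfy `dist ξ (φ v) ≤ C ‖v‖ ^ (-τ)`, for every
`C`. -/
theorem vec_metric {Y : Type*} [MetricSpace Y] {n : ℕ} (φ : (Fin n → ℤ) → Y) (W : Set (Fin n → ℤ)) {s τ : ℝ} (hs : 0 ≤ s)
    (hτ : 0 < τ) (hW : ∃ C : ℝ, ∀ B : ℕ, 1 ≤ B → ({v : Fin n → ℤ | v ∈ Bx n B ∧ v ∈ W}.ncard : ℝ) ≤ C * (B : ℝ) ^ s) :
    dimH {ξ : Y | ¬ ∀ C : ℝ, {v : Fin n → ℤ | dist ξ (φ v) ≤ C * ‖v‖ ^ (-τ) ∧ v ∈ W}.Finite} ≤ ENNReal.ofReal (s / τ) := by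
  classical
  obtain ⟨C₀, hC₀⟩ := hW
  have hfin : ∀ B : ℕ, {v : Fin n → ℤ | v ∈ Bx n B ∧ v ∈ W}.Finite := fun B =>
    (Bx n B).finite_toSet.subset fun _ hv => hv.1
  let F : ℕ → Set Y := fun k => φ '' {v : Fin n → ℤ | v ∈ Bx n (2 ^ (k + 1)) ∧ v ∈ W}
  have h1 := Pool.Agent.D0H63.MR.levels F hs hτ (fun ε hε => ⟨|C₀| * (2 : ℝ) ^ s, Filter.Eventually.of_forall fun k => by
    refine ⟨(hfin _).image _, ?_⟩
    have h1 : 1 ≤ 2 ^ (k + 1) := Nat.one_le_two_pow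
    have h2 := hC₀ _ h1
    have h3 := Nat.cast_le (α := ℝ) |>.2 (Set.ncard_image_le (f := φ) (hfin (2 ^ (k + 1))))
    refine h3.trans (h2.trans ?_)
    have h2n : (1 : ℝ) ≤ 2 ^ k := one_le_pow₀ (by norm_num)
    have h4 : (((2 ^ (k + 1) : ℕ) : ℝ)) ^ s = (2 : ℝ) ^ s * ((2 : ℝ) ^ k) ^ s := by
      rw [← Real.mul_rpow (by positivity) (by positivity)]
      congr 1
      push_cast
      ring
    rw [h4]
    have h5 : ((2 : ℝ) ^ k) ^ s ≤ ((2 : ℝ) ^ k) ^ (s + ε) := Real.rpow_le_rpow_of_exponent_le h2n (by linarith)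
    calc C₀ * ((2 : ℝ) ^ s * ((2 : ℝ) ^ k) ^ s) ≤ |C₀| * ((2 : ℝ) ^ s * ((2 : ℝ) ^ k) ^ s) :=
          mul_le_mul_of_nonneg_right (le_abs_self C₀) (by positivity)
      _ ≤ |C₀| * ((2 : ℝ) ^ s * ((2 : ℝ) ^ k) ^ (s + ε)) := by gcongr
      _ = _ := by ring⟩)
  refine le_trans (dimH_mono ?_) h1
  intro ξ hξ hcon
  apply hξ
  intro C
  obtain ⟨n₀, hn₀⟩ := eventually_atTop.1 (hcon |C|)
  refine (Bx n (2 ^ n₀)).finite_toSet.subset ?_
  rintro v ⟨hclose, hPW⟩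
  have hv : ∀ i, |((v i : ℤ) : ℝ)| ≤ ‖v‖ := fun i => by
    have := norm_le_pi_norm v i
    rwa [Int.norm_eq_abs] at this
  rcases lt_or_ge ‖v‖ (2 ^ n₀) with hlt | hge
  · rw [Finset.mem_coe, mem_Bx]
    intro i
    have h2 : |((v i : ℤ) : ℝ)| ≤ 2 ^ n₀ := (hv i).trans hlt.le
    exact_mod_cast h2
  · exfalso
    have h20 : (0 : ℝ) < 2 ^ n₀ := by positivity
    have hH0 : ⌊‖v‖⌋₊ ≠ 0 := by
      have h2 : 1 ≤ ⌊‖v‖⌋₊ := Nat.le_floor (by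
        push_cast
        exact le_trans (one_le_pow₀ (by norm_num)) hge)
      omega
    obtain ⟨k, hk⟩ : ∃ k, k = Nat.log 2 ⌊‖v‖⌋₊ := ⟨_, rfl⟩
    have h3 : 2 ^ k ≤ ⌊‖v‖⌋₊ := hk ▸ Nat.pow_log_le_self 2 hH0
    have h4 : ⌊‖v‖⌋₊ < 2 ^ (k + 1) := hk ▸ Nat.lt_pow_succ_log_self (by norm_num) _
    have h3' : (2 : ℝ) ^ k ≤ ‖v‖ := by
      have h5 : ((2 ^ k : ℕ) : ℝ) ≤ (⌊‖v‖⌋₊ : ℝ) := by exact_mod_cast h3
      push_cast at h5
      exact h5.trans (Nat.floor_le (norm_nonneg _))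
    have h4' : ‖v‖ < (2 : ℝ) ^ (k + 1) := by
      have h5 := (Nat.floor_lt (norm_nonneg v)).1 h4
      push_cast at h5
      exact h5
    have hn1 : n₀ ≤ k := by
      rw [hk]
      refine Nat.le_log_of_pow_le (by norm_num) (Nat.le_floor ?_)
      push_cast
      exact hge
    refine hn₀ k hn1 (φ v) ⟨v, ⟨mem_Bx.2 fun i => ?_, hPW⟩, rfl⟩ (hclose.trans ?_)
    · have h2 : |((v i : ℤ) : ℝ)| ≤ 2 ^ (k + 1) := (hv i).trans h4'.le
      exact_mod_cast h2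
    · have h7 : ‖v‖ ^ (-τ) ≤ ((2 : ℝ) ^ k) ^ (-τ) := Real.rpow_le_rpow_of_nonpos (by positivity) h3' (by linarith)
      calc C * ‖v‖ ^ (-τ) ≤ |C| * ‖v‖ ^ (-τ) := mul_le_mul_of_nonneg_right (le_abs_self C) (by positivity)
        _ ≤ |C| * ((2 : ℝ) ^ k) ^ (-τ) := mul_le_mul_of_nonneg_left h7 (abs_nonneg C)

/-- From the norm of `(q, p)` to the denominator `q` of the approximation `p / q` of a real vector. -/
theorem near_of_real {m : ℕ} {τ : ℝ} (hτ : 0 < τ) (ξ : Fin m → ℝ) (W : Set (Fin (m + 1) → ℤ))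
    (h : ∀ C : ℝ, {v : Fin (m + 1) → ℤ | dist ξ (fun i => ((v i.succ : ℤ) : ℝ) / (v 0 : ℤ)) ≤ C * ‖v‖ ^ (-τ) ∧ v ∈ W}.Finite) (C : ℝ) :
    {w : ℕ × (Fin m → ℤ) | 1 ≤ w.1 ∧ (∀ i, |ξ i - (w.2 i : ℝ) / w.1| ≤ C * (w.1 : ℝ) ^ (-τ)) ∧
      (Fin.cons (w.1 : ℤ) w.2 : Fin (m + 1) → ℤ) ∈ W}.Finite := by
  classical
  obtain ⟨K, hK⟩ : ∃ K : ℝ, K = ‖ξ‖ + |C| + 1 := ⟨_, rfl⟩
  have hK1 : 1 ≤ K := by
    rw [hK]
    have := norm_nonneg ξ
    have := abs_nonneg C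
    linarith
  have hinj : Set.InjOn (fun w : ℕ × (Fin m → ℤ) => (Fin.cons (w.1 : ℤ) w.2 : Fin (m + 1) → ℤ)) Set.univ := by
    rintro ⟨q, p⟩ - ⟨q', p'⟩ - heq
    simp only at heq
    have h1 := Fin.cons_injective2 heq
    exact Prod.ext (by exact_mod_cast h1.1) h1.2
  refine Set.Finite.of_finite_image ((h (|C| * K ^ τ)).subset ?_) (hinj.mono (Set.subset_univ _))
  rintro _ ⟨⟨q, p⟩, ⟨hq, hclose, hW⟩, rfl⟩
  simp only at hq hclose hW ⊢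
  refine ⟨?_, hW⟩
  have hq1 : (1 : ℝ) ≤ q := by exact_mod_cast hq
  have hq0 : (0 : ℝ) < q := by linarith
  have hqτ : (q : ℝ) ^ (-τ) ≤ 1 := Real.rpow_le_one_of_one_le_of_nonpos hq1 (by linarith)
  have hclose' : ∀ i, |ξ i - (p i : ℝ) / q| ≤ |C| * (q : ℝ) ^ (-τ) := fun i =>
    (hclose i).trans (mul_le_mul_of_nonneg_right (le_abs_self C) (by positivity))
  have hnorm : ‖(Fin.cons (q : ℤ) p : Fin (m + 1) → ℤ)‖ ≤ K * q := by
    rw [pi_norm_le_iff_of_nonneg (by positivity)]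
    intro i
    refine Fin.cases ?_ (fun j => ?_) i
    · rw [Fin.cons_zero, Int.norm_eq_abs, Int.cast_natCast, abs_of_pos hq0]
      nlinarith
    · rw [Fin.cons_succ, Int.norm_eq_abs]
      have h1 : |(p j : ℝ) / q| ≤ K := by
        have h2 : |ξ j| ≤ ‖ξ‖ := by
          have := norm_le_pi_norm ξ j
          rwa [Real.norm_eq_abs] at this
        have h3 := hclose' j
        have h4 : |C| * (q : ℝ) ^ (-τ) ≤ |C| := by
          calc |C| * (q : ℝ) ^ (-τ) ≤ |C| * 1 := mul_le_mul_of_nonneg_left hqτ (abs_nonneg C)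
            _ = _ := mul_one _
        have h5 : |(p j : ℝ) / q| ≤ |ξ j| + |ξ j - (p j : ℝ) / q| := by
          have := abs_sub_abs_le_abs_sub ((p j : ℝ) / q) (ξ j)
          rw [abs_sub_comm] at this
          linarith
        rw [hK]
        linarith
      rw [abs_div, abs_of_pos hq0, div_le_iff₀ hq0] at h1
      exact h1
  have hpos : 0 < ‖(Fin.cons (q : ℤ) p : Fin (m + 1) → ℤ)‖ := by
    have h1 := norm_le_pi_norm (Fin.cons (q : ℤ) p : Fin (m + 1) → ℤ) 0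
    rw [Fin.cons_zero, Int.norm_eq_abs, Int.cast_natCast, abs_of_pos hq0] at h1
    linarith
  have h6 : (q : ℝ) ^ (-τ) ≤ K ^ τ * ‖(Fin.cons (q : ℤ) p : Fin (m + 1) → ℤ)‖ ^ (-τ) := by
    have h7 : (K * q) ^ (-τ) ≤ ‖(Fin.cons (q : ℤ) p : Fin (m + 1) → ℤ)‖ ^ (-τ) :=
      Real.rpow_le_rpow_of_nonpos hpos hnorm (by linarith)
    have h8 : (K * q) ^ (-τ) = K ^ (-τ) * (q : ℝ) ^ (-τ) := Real.mul_rpow (by linarith) (by linarith)
    have h9 : K ^ τ * K ^ (-τ) = 1 := by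
      rw [← Real.rpow_add (by linarith), add_neg_cancel, Real.rpow_zero]
    calc (q : ℝ) ^ (-τ) = K ^ τ * (K * q) ^ (-τ) := by rw [h8, ← mul_assoc, h9, one_mul]
      _ ≤ _ := mul_le_mul_of_nonneg_left h7 (by positivity)
  have hnn : 0 ≤ |C| * K ^ τ * ‖(Fin.cons (q : ℤ) p : Fin (m + 1) → ℤ)‖ ^ (-τ) := by positivity
  rw [dist_pi_le_iff hnn]
  intro i
  rw [Real.dist_eq, Fin.cons_succ, Fin.cons_zero, Int.cast_natCast]
  refine (hclose' i).trans ?_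
  calc |C| * (q : ℝ) ^ (-τ) ≤ |C| * (K ^ τ * ‖(Fin.cons (q : ℤ) p : Fin (m + 1) → ℤ)‖ ^ (-τ)) :=
        mul_le_mul_of_nonneg_left h6 (abs_nonneg C)
    _ = _ := by ring

end Pool.Agent.D0H63.MP
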