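import Mathlib

set_option autoImplicit false

/-! Elimination of one variable, the size of the values and the number of the zeros of an integral polynomial in a box. -/

namespace Pool.Agent.D0H63.MP

open MvPolynomial Finset

theorem resultant_ne_zero {A : Type*} [CommRing A] [IsDomain A]
    [UniqueFactorizationMonoid A] (f g : Polynomial A) (hf : f.natDegree ≠ 0)
    (h : IsRelPrime f g) : Polynomial.resultant f g ≠ 0 := by
  classical
  intro h0
  have hf0 : f ≠ 0 := by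
    intro h1; rw [h1] at hf; simp at hf
  rw [Polynomial.resultant, ← Matrix.exists_mulVec_eq_zero_iff] at h0
  obtain ⟨v, hv, hv0⟩ := h0
  let b₁ := ((Polynomial.degreeLT.basis A f.natDegree).prod
    (Polynomial.degreeLT.basis A g.natDegree)).reindex finSumFinEquiv
  let b₂ := Polynomial.degreeLT.basis A (f.natDegree + g.natDegree)
  rw [← Polynomial.toMatrix_sylvesterMap' f g le_rfl le_rfl] at hv0
  let x := b₁.equivFun.symm v
  have hx : x ≠ 0 := by
    simp only [x]
    rw [Ne, LinearEquiv.map_eq_zero_iff]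
    exact hv
  have hmap : Polynomial.sylvesterMap f g le_rfl le_rfl x = 0 := by
    have h1 := LinearMap.toMatrix_mulVec_repr b₁ b₂ (Polynomial.sylvesterMap f g le_rfl le_rfl) x
    have h2 : (b₁.repr x : Fin (f.natDegree + g.natDegree) → A) = v := by
      have := b₁.equivFun.apply_symm_apply v
      rw [← this]
      rfl
    rw [h2] at h1
    rw [hv0] at h1
    have h3 : b₂.repr (Polynomial.sylvesterMap f g le_rfl le_rfl x) = 0 := by
      ext i
      have := congrFun h1 i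
      simpa using this.symm
    exact (LinearEquiv.map_eq_zero_iff b₂.repr).mp h3
  obtain ⟨p, q⟩ := x
  have hmap' := congrArg Subtype.val hmap
  simp only [Polynomial.sylvesterMap_apply_coe, ZeroMemClass.coe_zero] at hmap'
  have hdvd : f ∣ g * (p : Polynomial A) := by
    refine ⟨-(q : Polynomial A), ?_⟩
    linear_combination hmap'
  have hdvd' : f ∣ (p : Polynomial A) := h.dvd_of_dvd_mul_left hdvd
  have hp0 : (p : Polynomial A) = 0 := by
    by_contra hne
    have h1 := Polynomial.degree_le_of_dvd hdvd' hne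
    have h2 := Polynomial.mem_degreeLT.mp p.2
    have h3 := lt_of_le_of_lt h1 h2
    rw [Polynomial.degree_eq_natDegree hf0] at h3
    exact lt_irrefl _ h3
  rw [hp0, mul_zero, add_zero] at hmap'
  have hq0 : (q : Polynomial A) = 0 := by
    rcases mul_eq_zero.mp hmap' with h1 | h1
    · exact absurd h1 hf0
    · exact h1
  apply hx
  ext1
  · exact Subtype.ext hp0
  · exact Subtype.ext hq0

/-- the integral vectors with coordinates of absolute value at most `B` -/
noncomputable def Bx (n B : ℕ) : Finset (Fin n → ℤ) := Fintype.piFinset fun _ => Icc (-(B : ℤ)) B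

theorem mem_Bx {n B : ℕ} {v : Fin n → ℤ} : v ∈ Bx n B ↔ ∀ i, |v i| ≤ B := by
  unfold Bx
  rw [Fintype.mem_piFinset]
  exact forall_congr' fun i => by rw [mem_Icc, abs_le]

theorem card_Icc' (B : ℕ) : (Icc (-(B : ℤ)) B).card = 2 * B + 1 := by
  rw [Int.card_Icc]
  omega

theorem card_Bx (n B : ℕ) : (Bx n B).card = (2 * B + 1) ^ n := by
  unfold Bx
  rw [Fintype.card_piFinset]
  simp only [card_Icc', prod_const, card_univ, Fintype.card_fin]

/-- the size of the values -/
theorem eval_le {n : ℕ} (Q : MvPolynomial (Fin n) ℤ) {N : ℕ} (hN : Q.totalDegree ≤ N) : ∃ C : ℝ, 1 ≤ C ∧ ∀ B : ℕ, 1 ≤ B →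
    ∀ v ∈ Bx n B, |((eval v Q : ℤ) : ℝ)| ≤ C * (B : ℝ) ^ N := by
  classical
  have h0 : 0 ≤ ∑ s ∈ Q.support, |((Q.coeff s : ℤ) : ℝ)| := sum_nonneg fun _ _ => abs_nonneg _
  refine ⟨(∑ s ∈ Q.support, |((Q.coeff s : ℤ) : ℝ)|) + 1, by linarith, fun B hB v hv => ?_⟩
  have hB1 : (1 : ℝ) ≤ B := by exact_mod_cast hB
  rw [mem_Bx] at hv
  rw [MvPolynomial.eval_eq]
  push_cast
  have h1 : ∀ s ∈ Q.support, |((Q.coeff s : ℤ) : ℝ) * ∏ i ∈ s.support, ((v i : ℤ) : ℝ) ^ s i| ≤
      |((Q.coeff s : ℤ) : ℝ)| * (B : ℝ) ^ N := by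
    intro s hs
    rw [abs_mul]
    refine mul_le_mul_of_nonneg_left ?_ (abs_nonneg _)
    rw [abs_prod]
    calc ∏ i ∈ s.support, |((v i : ℤ) : ℝ) ^ s i| ≤ ∏ i ∈ s.support, (B : ℝ) ^ s i := by
          refine prod_le_prod (fun _ _ => abs_nonneg _) fun i _ => ?_
          rw [abs_pow]
          exact pow_le_pow_left₀ (abs_nonneg _) (by exact_mod_cast hv i) _
      _ = (B : ℝ) ^ (∑ i ∈ s.support, s i) := by rw [prod_pow_eq_pow_sum]
      _ ≤ (B : ℝ) ^ N := pow_le_pow_right₀ hB1 ((le_totalDegree hs).trans hN)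
  calc |∑ s ∈ Q.support, ((Q.coeff s : ℤ) : ℝ) * ∏ i ∈ s.support, ((v i : ℤ) : ℝ) ^ s i|
      ≤ ∑ s ∈ Q.support, |((Q.coeff s : ℤ) : ℝ)| * (B : ℝ) ^ N := (abs_sum_le_sum_abs _ _).trans (sum_le_sum h1)
    _ = (∑ s ∈ Q.support, |((Q.coeff s : ℤ) : ℝ)|) * (B : ℝ) ^ N := by rw [sum_mul]
    _ ≤ _ := mul_le_mul_of_nonneg_right (by linarith) (by positivity)

/-- the number of the zeros in a box -/
theorem zeros_le {m : ℕ} {P : MvPolynomial (Fin (m + 1)) ℤ} (hP : P ≠ 0) (B : ℕ) :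
    (((Bx (m + 1) B).filter fun v => eval v P = 0).card : ℝ) ≤ P.totalDegree * (2 * B + 1 : ℝ) ^ m := by
  classical
  have h := schwartz_zippel_totalDegree hP (Icc (-(B : ℤ)) B)
  rw [card_Icc'] at h
  have hpos : (0 : ℚ≥0) < ((2 * B + 1 : ℕ) : ℚ≥0) := by positivity
  rw [div_le_div_iff₀ (by positivity) hpos, pow_succ, ← mul_assoc] at h
  have h2 := le_of_mul_le_mul_right h hpos
  have h3 : (((Bx (m + 1) B).filter fun v => eval v P = 0).card : ℚ≥0) ≤ ((P.totalDegree * (2 * B + 1) ^ m : ℕ) : ℚ≥0) := by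
    refine le_trans (le_of_eq ?_) (h2.trans (le_of_eq ?_))
    · rfl
    · push_cast
      ring
  have h4 : ((Bx (m + 1) B).filter fun v => eval v P = 0).card ≤ P.totalDegree * (2 * B + 1) ^ m := by exact_mod_cast h3
  exact_mod_cast h4

/-- elimination of the first variable -/
theorem elim {m : ℕ} {A D : MvPolynomial (Fin (m + 1)) ℤ} (hrel : IsRelPrime A D)
    (h0 : (finSuccEquiv ℤ m D).natDegree ≠ 0) : ∃ R : MvPolynomial (Fin m) ℤ, R ≠ 0 ∧
    ∀ (x : ℤ) (s : Fin m → ℤ) (p : ℤ), p ∣ eval (Fin.cons x s : Fin (m + 1) → ℤ) A →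
      p ∣ eval (Fin.cons x s : Fin (m + 1) → ℤ) D → p ∣ eval s R := by
  classical
  have h1 : IsRelPrime (finSuccEquiv ℤ m D) (finSuccEquiv ℤ m A) := by
    have h2 : IsRelPrime D A := hrel.symm
    refine IsRelPrime.of_map (finSuccEquiv ℤ m).symm ?_
    simpa using h2
  refine ⟨_, resultant_ne_zero _ _ h0 h1, fun x s p hA hD => ?_⟩
  obtain ⟨u, w, -, -, huw⟩ := Polynomial.exists_mul_add_mul_eq_C_resultant (finSuccEquiv ℤ m D) (finSuccEquiv ℤ m A)
    (m := (finSuccEquiv ℤ m D).natDegree) (n := (finSuccEquiv ℤ m A).natDegree) le_rfl le_rfl (Or.inl h0)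
  rw [eval_eq_eval_mv_eval'] at hA hD
  have h3 := congrArg (fun f => Polynomial.eval x (Polynomial.map (eval s) f)) huw
  simp only [Polynomial.map_add, Polynomial.map_mul, Polynomial.eval_add, Polynomial.eval_mul, Polynomial.map_C,
    Polynomial.eval_C] at h3
  rw [← h3]
  exact dvd_add (dvd_mul_of_dvd_left hD _) (dvd_mul_of_dvd_left hA _)

end Pool.Agent.D0H63.MP
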